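import Mathlib

/-!
# A symmetric doubly stochastic matrix of order 4 determined by its spectrum off the segments

The matrix is the direct sum of `1/2 1/2; 1/2 1/2` and `1/10 9/10; 9/10 1/10`.
Its spectrum is `1, 1, 0, -4/5`. A matrix with this spectrum is reducible, and the splitting `1 + 3` is
impossible since there is no symmetric doubly stochastic matrix with spectrum `1, 0, -4/5`.
-/

set_option autoImplicit false

namespace Pool.Agent.Results.MP_3aa442_co.NotOnSegments

open Matrix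

/-- The set of symmetric doubly stochastic `n × n` matrices. -/
def SymDS (n : ℕ) : Set (Matrix (Fin n) (Fin n) ℝ) :=
  {A | A.transpose = A ∧ (∀ i j, 0 ≤ A i j) ∧ (∀ i, ∑ j, A i j = 1)}

/-- The matrix `C_n` with zero diagonal and off-diagonal entries `1 / (n - 1)`. -/
noncomputable def C (n : ℕ) : Matrix (Fin n) (Fin n) ℝ :=
  fun i j => if i = j then 0 else 1 / ((n : ℝ) - 1)

/-- `A` is determined by its spectrum in the set of symmetric doubly stochastic matrices: every
symmetric doubly stochastic `B` that is similar to `A` (`B = T⁻¹ A T` with `T` invertible) is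
permutationally similar to `A`. -/
def IsDetBySpectrum {n : ℕ} (A : Matrix (Fin n) (Fin n) ℝ) : Prop :=
  ∀ B ∈ SymDS n, (∃ T : Matrix (Fin n) (Fin n) ℝ, IsUnit T.det ∧ B = T⁻¹ * A * T) →
    ∃ σ : Equiv.Perm (Fin n), B = A.submatrix σ σ

/-- the counterexample -/
noncomputable def A0 : Matrix (Fin 4) (Fin 4) ℝ :=
  !![1/2, 1/2, 0, 0; 1/2, 1/2, 0, 0; 0, 0, 1/10, 9/10; 0, 0, 9/10, 1/10]

theorem single {x y z : ℝ} (hs : x + y + z = 7/5) (hx : 0 ≤ 1 - x - y)
    (hy : 0 ≤ 1 - x - z) (hz : 0 ≤ 1 - y - z)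
    (hq : (1 - x - y)^2 + (1 - x - z)^2 + (1 - y - z)^2 + 2 * (x^2 + y^2 + z^2) = 41/25) :
    False := by
  have h1 : 2/5 ≤ x := by linarith
  have h2 : 2/5 ≤ y := by linarith
  have h3 : 2/5 ≤ z := by linarith
  have h4 : x ≤ 3/5 := by linarith
  have h5 : y ≤ 3/5 := by linarith
  have h6 : z ≤ 3/5 := by linarith
  nlinarith [mul_nonneg (sub_nonneg.2 h1) (sub_nonneg.2 h4),
    mul_nonneg (sub_nonneg.2 h2) (sub_nonneg.2 h5), mul_nonneg (sub_nonneg.2 h3) (sub_nonneg.2 h6)]

theorem pair {p q : ℝ} (hs : p + q = 7/5)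
    (hq : 2 * (1 - p)^2 + 2 * p^2 + 2 * (1 - q)^2 + 2 * q^2 = 66/25) :
    (p = 1/2 ∧ q = 9/10) ∨ (p = 9/10 ∧ q = 1/2) := by
  have hq' : q = 7/5 - p := by linarith
  subst hq'
  have : (p - 1/2) * (p - 9/10) = 0 := by nlinarith
  rcases mul_eq_zero.1 this with h | h
  · left; constructor <;> linarith
  · right; constructor <;> linarith

theorem classify (B : Matrix (Fin 4) (Fin 4) ℝ) (hB : B ∈ SymDS 4) (c : Fin 4 → Prop)
    (hc : ∀ i j, c i → ¬ c j → B i j = 0) (h0 : c 0) (hnex : ∃ i, ¬ c i)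
    (htr : B.trace = 6/5) (htr2 : (B * B).trace = 66/25) :
    ∃ σ : Equiv.Perm (Fin 4), B = A0.submatrix σ σ := by
  obtain ⟨hsym, hnn, hrow⟩ := hB
  have s : ∀ i j, B i j = B j i := fun i j => congrFun (congrFun hsym.symm i) j
  have r0 := hrow 0
  have r1 := hrow 1
  have r2 := hrow 2
  have r3 := hrow 3
  simp only [Fin.sum_univ_four] at r0 r1 r2 r3
  simp only [Matrix.trace, Matrix.diag, Fin.sum_univ_four, Matrix.mul_apply] at htr htr2
  have s10 := s 1 0
  have s20 := s 2 0
  have s30 := s 3 0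
  have s21 := s 2 1
  have s31 := s 3 1
  have s32 := s 3 2
  rw [s10] at r1 htr2
  rw [s20] at r2 htr2
  rw [s30] at r3 htr2
  rw [s21] at r2 htr2
  rw [s31] at r3 htr2
  rw [s32] at r3 htr2
  have n00 := hnn 0 0
  have n11 := hnn 1 1
  have n22 := hnn 2 2
  have n33 := hnn 3 3
  have e00 : B 0 0 = 1 - B 0 1 - B 0 2 - B 0 3 := by linarith
  have e11 : B 1 1 = 1 - B 0 1 - B 1 2 - B 1 3 := by linarith
  have e22 : B 2 2 = 1 - B 0 2 - B 1 2 - B 2 3 := by linarith
  have e33 : B 3 3 = 1 - B 0 3 - B 1 3 - B 2 3 := by linarith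
  rw [e00] at n00
  rw [e11] at n11
  rw [e22] at n22
  rw [e33] at n33
  rw [e00, e11, e22, e33] at htr htr2
  by_cases h1 : c 1 <;> by_cases h2 : c 2 <;> by_cases h3 : c 3
  · -- all
    exfalso
    obtain ⟨i, hi⟩ := hnex
    fin_cases i
    · exact hi h0
    · exact hi h1
    · exact hi h2
    · exact hi h3
  · -- 0,1,2 | 3
    exfalso
    have z1 := hc 0 3 h0 h3
    have z2 := hc 1 3 h1 h3
    have z3 := hc 2 3 h2 h3
    rw [z1, z2, z3] at htr htr2
    rw [z1] at n00
    rw [z2] at n11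
    rw [z3] at n22
    exact single (x := B 0 1) (y := B 0 2) (z := B 1 2) (by linarith) (by linarith) (by linarith)
      (by linarith) (by linear_combination htr2)
  · -- 0,1,3 | 2
    exfalso
    have z1 := hc 0 2 h0 h2
    have z2 := hc 1 2 h1 h2
    have z3 : B 2 3 = 0 := by rw [← s32]; exact hc 3 2 h3 h2
    rw [z1, z2, z3] at htr htr2
    rw [z1] at n00
    rw [z2] at n11
    rw [z3] at n33
    exact single (x := B 0 1) (y := B 0 3) (z := B 1 3) (by linarith) (by linarith) (by linarith)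
      (by linarith) (by linear_combination htr2)
  · -- 0,1 | 2,3
    have z1 := hc 0 2 h0 h2
    have z2 := hc 0 3 h0 h3
    have z3 := hc 1 2 h1 h2
    have z4 := hc 1 3 h1 h3
    rw [z1, z2, z3, z4] at htr htr2
    rw [z1, z2] at e00
    rw [z3, z4] at e11
    rw [z1, z3] at e22
    rw [z2, z4] at e33
    rcases pair (p := B 0 1) (q := B 2 3) (by linarith) (by linear_combination htr2) with ⟨hp, hq⟩ | ⟨hp, hq⟩
    · refine ⟨1, ?_⟩
      ext i j
      fin_cases i <;> fin_cases j <;>
        simp [A0, s10, s20, s30, s21, s31, s32, z1, z2, z3, z4, e00, e11, e22, e33, hp, hq] <;>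
        norm_num
    · refine ⟨Equiv.swap 0 2 * Equiv.swap 1 3, ?_⟩
      ext i j
      fin_cases i <;> fin_cases j <;>
        simp [A0, s10, s20, s30, s21, s31, s32, z1, z2, z3, z4, e00, e11, e22, e33, hp, hq,
          Equiv.swap_apply_def] <;>
        norm_num
  · -- 0,2,3 | 1
    exfalso
    have z1 := hc 0 1 h0 h1
    have z2 : B 1 2 = 0 := by rw [← s21]; exact hc 2 1 h2 h1
    have z3 : B 1 3 = 0 := by rw [← s31]; exact hc 3 1 h3 h1
    rw [z1, z2, z3] at htr htr2
    rw [z1] at n00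
    rw [z2] at n22
    rw [z3] at n33
    exact single (x := B 0 2) (y := B 0 3) (z := B 2 3) (by linarith) (by linarith) (by linarith)
      (by linarith) (by linear_combination htr2)
  · -- 0,2 | 1,3
    have z1 := hc 0 1 h0 h1
    have z2 := hc 0 3 h0 h3
    have z3 : B 1 2 = 0 := by rw [← s21]; exact hc 2 1 h2 h1
    have z4 := hc 2 3 h2 h3
    rw [z1, z2, z3, z4] at htr htr2
    rw [z1, z2] at e00
    rw [z1, z3] at e11
    rw [z3, z4] at e22
    rw [z2, z4] at e33
    rcases pair (p := B 0 2) (q := B 1 3) (by linarith) (by linear_combination htr2) with ⟨hp, hq⟩ | ⟨hp, hq⟩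
    · refine ⟨Equiv.swap 1 2, ?_⟩
      ext i j
      fin_cases i <;> fin_cases j <;>
        simp [A0, s10, s20, s30, s21, s31, s32, z1, z2, z3, z4, e00, e11, e22, e33, hp, hq,
          Equiv.swap_apply_def] <;>
        norm_num
    · refine ⟨Equiv.swap 0 2 * Equiv.swap 1 3 * Equiv.swap 1 2, ?_⟩
      ext i j
      fin_cases i <;> fin_cases j <;>
        simp [A0, s10, s20, s30, s21, s31, s32, z1, z2, z3, z4, e00, e11, e22, e33, hp, hq,
          Equiv.swap_apply_def] <;>
        norm_num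
  · -- 0,3 | 1,2
    have z1 := hc 0 1 h0 h1
    have z2 := hc 0 2 h0 h2
    have z3 : B 1 3 = 0 := by rw [← s31]; exact hc 3 1 h3 h1
    have z4 : B 2 3 = 0 := by rw [← s32]; exact hc 3 2 h3 h2
    rw [z1, z2, z3, z4] at htr htr2
    rw [z1, z2] at e00
    rw [z1, z3] at e11
    rw [z2, z4] at e22
    rw [z3, z4] at e33
    rcases pair (p := B 0 3) (q := B 1 2) (by linarith) (by linear_combination htr2) with ⟨hp, hq⟩ | ⟨hp, hq⟩
    · refine ⟨Equiv.swap 1 3, ?_⟩
      ext i j
      fin_cases i <;> fin_cases j <;>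
        simp [A0, s10, s20, s30, s21, s31, s32, z1, z2, z3, z4, e00, e11, e22, e33, hp, hq,
          Equiv.swap_apply_def] <;>
        norm_num
    · refine ⟨Equiv.swap 0 2 * Equiv.swap 1 3 * Equiv.swap 1 3, ?_⟩
      ext i j
      fin_cases i <;> fin_cases j <;>
        simp [A0, s10, s20, s30, s21, s31, s32, z1, z2, z3, z4, e00, e11, e22, e33, hp, hq,
          Equiv.swap_apply_def] <;>
        norm_num
  · -- 0 | 1,2,3
    exfalso
    have z1 := hc 0 1 h0 h1
    have z2 := hc 0 2 h0 h2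
    have z3 := hc 0 3 h0 h3
    rw [z1, z2, z3] at htr htr2
    rw [z1] at n11
    rw [z2] at n22
    rw [z3] at n33
    exact single (x := B 1 2) (y := B 1 3) (z := B 2 3) (by linarith) (by linarith) (by linarith)
      (by linarith) (by linear_combination htr2)

theorem A0_mem : A0 ∈ SymDS 4 := by
  refine ⟨?_, ?_, ?_⟩
  · ext i j
    fin_cases i <;> fin_cases j <;> simp [A0]
  · intro i j
    fin_cases i <;> fin_cases j <;> simp [A0] <;> norm_num
  · intro i
    fin_cases i <;> simp [A0, Fin.sum_univ_four] <;> norm_num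

theorem A0_trace : A0.trace = 6/5 := by
  simp [A0, Matrix.trace, Fin.sum_univ_four]; norm_num

theorem A0_trace2 : (A0 * A0).trace = 66/25 := by
  simp [A0, Matrix.trace, Matrix.mul_apply, Fin.sum_univ_four]; norm_num

theorem det_by_spectrum : IsDetBySpectrum A0 := by
  rintro B hB ⟨T, hT, hBT⟩
  have hTT : T⁻¹ * T = 1 := Matrix.nonsing_inv_mul T hT
  have hTT' : T * T⁻¹ = 1 := Matrix.mul_nonsing_inv T hT
  have htr : B.trace = 6/5 := by
    rw [hBT, Matrix.trace_mul_comm, ← Matrix.mul_assoc, hTT', Matrix.one_mul, A0_trace]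
  have hBB : B * B = T⁻¹ * (A0 * A0) * T := by
    rw [hBT]
    calc T⁻¹ * A0 * T * (T⁻¹ * A0 * T) = T⁻¹ * A0 * (T * T⁻¹) * A0 * T := by
          simp only [Matrix.mul_assoc]
      _ = T⁻¹ * (A0 * A0) * T := by rw [hTT', Matrix.mul_one]; simp only [Matrix.mul_assoc]
  have htr2 : (B * B).trace = 66/25 := by
    rw [hBB, Matrix.trace_mul_comm, ← Matrix.mul_assoc, hTT', Matrix.one_mul, A0_trace2]
  -- a nonconstant eigenvector
  have hTB : T * B = A0 * T := by
    rw [hBT, ← Matrix.mul_assoc, ← Matrix.mul_assoc, hTT', Matrix.one_mul]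
  obtain ⟨u, hu, hunc⟩ : ∃ u : Fin 4 → ℝ, B *ᵥ u = u ∧ ¬ (∃ t : ℝ, ∀ i, u i = t) := by
    have heig : ∀ w : Fin 4 → ℝ, A0 *ᵥ w = w → B *ᵥ (T⁻¹ *ᵥ w) = T⁻¹ *ᵥ w := by
      intro w hw
      rw [hBT, Matrix.mulVec_mulVec]
      have : T⁻¹ * A0 * T * T⁻¹ = T⁻¹ * A0 := by
        rw [Matrix.mul_assoc, hTT', Matrix.mul_one]
      rw [this, ← Matrix.mulVec_mulVec, hw]
    have hw1 : A0 *ᵥ ![1, 1, 0, 0] = ![1, 1, 0, 0] := by
      ext i
      fin_cases i <;> simp [A0, Matrix.mulVec, dotProduct, Fin.sum_univ_four] <;> norm_num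
    have hw2 : A0 *ᵥ ![0, 0, 1, 1] = ![0, 0, 1, 1] := by
      ext i
      fin_cases i <;> simp [A0, Matrix.mulVec, dotProduct, Fin.sum_univ_four] <;> norm_num
    by_contra hno
    push Not at hno
    obtain ⟨α, hα⟩ := hno _ (heig _ hw1)
    obtain ⟨β, hβ⟩ := hno _ (heig _ hw2)
    have e1 : ![1, 1, 0, 0] = α • (T *ᵥ (fun _ => (1 : ℝ))) := by
      have : T⁻¹ *ᵥ ![1, 1, 0, 0] = α • (fun _ => (1 : ℝ)) := by
        funext i; rw [hα i]; simp
      rw [← Matrix.mulVec_smul, ← this, Matrix.mulVec_mulVec, hTT', Matrix.one_mulVec]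
    have e2 : ![0, 0, 1, 1] = β • (T *ᵥ (fun _ => (1 : ℝ))) := by
      have : T⁻¹ *ᵥ ![0, 0, 1, 1] = β • (fun _ => (1 : ℝ)) := by
        funext i; rw [hβ i]; simp
      rw [← Matrix.mulVec_smul, ← this, Matrix.mulVec_mulVec, hTT', Matrix.one_mulVec]
    have a0 := congrFun e1 0
    have a2 := congrFun e1 2
    have b2 := congrFun e2 2
    simp only [Pi.smul_apply, smul_eq_mul, Matrix.cons_val_zero, Matrix.cons_val] at a0 a2 b2
    have hα0 : α ≠ 0 := by rintro rfl; simp at a0
    have ht : (T *ᵥ (fun _ => (1 : ℝ))) 2 = 0 := by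
      rcases mul_eq_zero.1 a2.symm with h | h
      · exact absurd h hα0
      · exact h
    rw [ht] at b2
    norm_num at b2
  obtain ⟨m, hm⟩ := Finite.exists_max u
  have hzero : ∀ i j, u i = u m → ¬ (u j = u m) → B i j = 0 := by
    intro i j hi hj
    have h1 : ∑ k, B i k * (u m - u k) = 0 := by
      have h2 := congrFun hu i
      simp only [Matrix.mulVec, dotProduct] at h2
      simp only [mul_sub, Finset.sum_sub_distrib]
      rw [h2, ← Finset.sum_mul, hB.2.2 i, hi]; ring
    have h3 : ∀ k ∈ Finset.univ, 0 ≤ B i k * (u m - u k) := fun k _ =>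
      mul_nonneg (hB.2.1 i k) (sub_nonneg.2 (hm k))
    have h4 := (Finset.sum_eq_zero_iff_of_nonneg h3).1 h1 j (Finset.mem_univ j)
    rcases mul_eq_zero.1 h4 with h5 | h5
    · exact h5
    · exact absurd (by linarith) hj
  have hnc : ∃ i, ¬ (u i = u m) := by
    by_contra hno
    push Not at hno
    exact hunc ⟨u m, hno⟩
  by_cases h0 : u 0 = u m
  · exact classify B hB (fun i => u i = u m) hzero h0 hnc htr htr2
  · refine classify B hB (fun i => ¬ (u i = u m)) ?_ h0 ⟨m, by simp⟩ htr htr2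
    intro i j hi hj
    have hs : B i j = B j i := congrFun (congrFun hB.1.symm i) j
    rw [hs]
    exact hzero j i (not_not.1 hj) hi

/-- a matrix in `SymDS 4` whose first two rows vanish in the last two columns and whose `(0,1)` entry is
strictly between `0` and `1` is not an extreme point -/
theorem not_extreme (P : Matrix (Fin 4) (Fin 4) ℝ) (hP : P ∈ SymDS 4) (h02 : P 0 2 = 0)
    (h03 : P 0 3 = 0) (h12 : P 1 2 = 0) (h13 : P 1 3 = 0) (h1 : 0 < P 0 1) (h2 : P 0 1 < 1) :
    P ∉ (SymDS 4).extremePoints ℝ := by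
  intro hext
  rw [mem_extremePoints] at hext
  obtain ⟨hsym, hnn, hrow⟩ := hP
  have s : ∀ i j, P i j = P j i := fun i j => congrFun (congrFun hsym.symm i) j
  have r0 := hrow 0
  have r1 := hrow 1
  have r2 := hrow 2
  have r3 := hrow 3
  simp only [Fin.sum_univ_four] at r0 r1 r2 r3
  have s10 := s 1 0
  have s20 := s 2 0
  have s30 := s 3 0
  have s21 := s 2 1
  have s31 := s 3 1
  have s32 := s 3 2
  have p00 : P 0 0 = 1 - P 0 1 := by linarith
  have p11 : P 1 1 = 1 - P 0 1 := by linarith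
  set Q : ℝ → Matrix (Fin 4) (Fin 4) ℝ := fun x =>
    !![1 - x, x, 0, 0; x, 1 - x, 0, 0; 0, 0, P 2 2, P 2 3; 0, 0, P 2 3, P 3 3] with hQ
  have hQmem : ∀ x, 0 ≤ x → x ≤ 1 → Q x ∈ SymDS 4 := by
    intro x hx0 hx1
    refine ⟨?_, ?_, ?_⟩
    · ext i j
      fin_cases i <;> fin_cases j <;> simp [Q]
    · intro i j
      fin_cases i <;> fin_cases j <;> simp [Q, hx0, hx1, hnn]
    · intro i
      fin_cases i <;> simp [Q, Fin.sum_univ_four]
      · linarith
      · linarith
  have h3 := hext.2 (Q 0) (hQmem 0 le_rfl zero_le_one) (Q 1) (hQmem 1 zero_le_one le_rfl) (by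
    refine ⟨1 - P 0 1, P 0 1, by linarith, h1, by ring, ?_⟩
    ext i j
    fin_cases i <;> fin_cases j <;>
      simp [Q, p00, p11, h02, h03, h12, h13, s10, s20, s30, s21, s31, s32] <;> ring)
  have h4 := congrFun (congrFun h3.1 0) 1
  simp [Q] at h4
  linarith

/-- There is a symmetric doubly stochastic matrix of order `4` with positive trace that is determined
by its spectrum and lies on none of the segments from the identity to `C_4`, and from the
identity or `C_4` to a vertex. -/
theorem result : ∃ A ∈ SymDS 4, 0 < A.trace ∧ A.trace ≤ 4 ∧ IsDetBySpectrum A ∧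
    A ∉ segment ℝ 1 (C 4) ∧
    ∀ P ∈ (SymDS 4).extremePoints ℝ, A ∉ segment ℝ 1 P ∧ A ∉ segment ℝ (C 4) P := by
  refine ⟨A0, A0_mem, by rw [A0_trace]; norm_num, by rw [A0_trace]; norm_num, det_by_spectrum,
    ?_, ?_⟩
  · rintro ⟨a, b, ha, hb, hab, h⟩
    have h1 := congrFun (congrFun h 0) 1
    have h2 := congrFun (congrFun h 0) 2
    simp [A0, C] at h1 h2
    rcases h2 with h2 | h2
    · rw [h2] at h1
      norm_num at h1
    · norm_num at h2
  · intro P hP
    have hPm : P ∈ SymDS 4 := hP.1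
    have hnn := hPm.2.1
    have hsym : ∀ i j, P i j = P j i := fun i j => congrFun (congrFun hPm.1.symm i) j
    constructor
    · rintro ⟨a, b, ha, hb, hab, h⟩
      have h01 := congrFun (congrFun h 0) 1
      have h02 := congrFun (congrFun h 0) 2
      have h03 := congrFun (congrFun h 0) 3
      have h12 := congrFun (congrFun h 1) 2
      have h13 := congrFun (congrFun h 1) 3
      have h23 := congrFun (congrFun h 2) 3
      simp [A0] at h01 h02 h03 h12 h13 h23
      have hb0 : b ≠ 0 := by rintro rfl; norm_num at h01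
      have hbpos : 0 < b := lt_of_le_of_ne hb hb0.symm
      have r2 := hPm.2.2 2
      simp only [Fin.sum_univ_four] at r2
      have hP23 : P 2 3 ≤ 1 := by
        have := hnn 2 0
        have := hnn 2 1
        have := hnn 2 2
        linarith
      have hP01 : P 0 1 < 1 := by
        have : b * P 0 1 < b * 1 := by nlinarith
        exact lt_of_mul_lt_mul_left this hb
      have hP01' : 0 < P 0 1 := by
        have h5 : 0 < b * P 0 1 := by rw [h01]; norm_num
        exact pos_of_mul_pos_right h5 hb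
      exact not_extreme P hPm (h02.resolve_left hb0) (h03.resolve_left hb0)
        (h12.resolve_left hb0) (h13.resolve_left hb0) hP01' hP01 hP
    · rintro ⟨a, b, ha, hb, hab, h⟩
      have h01 := congrFun (congrFun h 0) 1
      have h02 := congrFun (congrFun h 0) 2
      have h03 := congrFun (congrFun h 0) 3
      have h12 := congrFun (congrFun h 1) 2
      have h13 := congrFun (congrFun h 1) 3
      simp [A0, C] at h01 h02 h03 h12 h13
      have ha0 : a = 0 := by
        have h5 : 0 ≤ b * P 0 2 := mul_nonneg hb (hnn 0 2)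
        have h6 : 0 ≤ a * (4 - 1 : ℝ)⁻¹ := mul_nonneg ha (by norm_num)
        have h7 : a * (4 - 1 : ℝ)⁻¹ = 0 := by linarith
        rcases mul_eq_zero.1 h7 with h8 | h8
        · exact h8
        · norm_num at h8
      subst ha0
      have hb1 : b = 1 := by linarith
      subst hb1
      simp at h01 h02 h03 h12 h13
      exact not_extreme P hPm h02 h03 h12 h13 (by rw [h01]; norm_num) (by rw [h01]; norm_num) hP

end Pool.Agent.Results.MP_3aa442_co.NotOnSegments
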